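import Pool.Agent.H.MP_a8a68c_co.D

namespace Pool.Agent.H.MP_a8a68c_co
open Finset

variable {Ω : Type} [Fintype Ω] [DecidableEq Ω]

theorem inner_ind (p : Finset Ω) (w : EuclideanSpace ℝ Ω) : inner ℝ (ind p) w = ∑ ω ∈ p, w ω := by
  rw [PiLp.inner_apply]
  simp only [ind, real_inner_eq_re_inner, RCLike.inner_apply, conj_trivial, RCLike.re_to_real,
    mul_ite, mul_one, mul_zero]
  rw [sum_ite_mem, univ_inter]

theorem inner_ii (p q : Finset Ω) : inner ℝ (ind p) (ind q) = ((p ∩ q).card : ℝ) := by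
  rw [inner_ind]
  simp only [ind]
  rw [sum_ite_mem]; simp

theorem ind_mem (F : Part Ω) {p : Finset Ω} (hp : p ∈ F.parts) : ind p ∈ V F :=
  Submodule.subset_span ⟨p, hp, rfl⟩

/-- a vector constant on the parts lies in `V F` -/
theorem mem_V (F : Part Ω) (c : Finset Ω → ℝ) (w : EuclideanSpace ℝ Ω)
    (h : ∀ p ∈ F.parts, ∀ ω ∈ p, w ω = c p) : w ∈ V F := by
  have : w = ∑ p ∈ F.parts, c p • ind p := by
    ext ω
    obtain ⟨p, ⟨hp, hω⟩, hu⟩ := F.existsUnique_mem (mem_univ ω)
    rw [WithLp.ofLp_sum, Finset.sum_apply, sum_eq_single_of_mem p hp, h p hp ω hω]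
    · simp [ind, hω]
    · intro q hq hqp
      have : ω ∉ q := fun h' => hqp (hu q ⟨hq, h'⟩)
      simp [ind, this]
  rw [this]
  exact Submodule.sum_mem _ fun p hp => Submodule.smul_mem _ _ (ind_mem F hp)

theorem u_mem (F : Part Ω) : ind univ ∈ V F := mem_V F (fun _ => 1) _ fun _ _ _ _ => by simp [ind]

theorem orth_V (F : Part Ω) (x : EuclideanSpace ℝ Ω) (h : ∀ p ∈ F.parts, inner ℝ (ind p) x = 0) :
    ∀ w ∈ V F, inner ℝ x w = 0 := by
  intro w hw
  induction hw using Submodule.span_induction with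
  | mem y hy => obtain ⟨p, hp, rfl⟩ := hy; rw [real_inner_comm]; exact h p hp
  | zero => simp
  | add a b _ _ ha hb => rw [inner_add_right, ha, hb, add_zero]
  | smul r a _ ha => rw [inner_smul_right, ha, mul_zero]

theorem PU_zero (y : EuclideanSpace ℝ Ω) (h : inner ℝ (ind univ) y = 0) : PU y = 0 :=
  Submodule.eq_starProjection_of_mem_of_inner_eq_zero (Submodule.zero_mem _) fun w hw => by
    obtain ⟨r, rfl⟩ := Submodule.mem_span_singleton.1 hw
    rw [sub_zero, inner_smul_right, real_inner_comm, h, mul_zero]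

theorem sup1 (F : Part Ω) : (⨆ G ∈ ({F} : Finset (Part Ω)), V G) = V F := by simp

theorem P1 (F : Part Ω) : P {F} = (V F).starProjection := by
  unfold P; simp only [sup1]

theorem key (F G1 G2 : Part Ω) (s α β : ℝ) (hs : ∀ p ∈ F.parts, (p.card : ℝ) = s)
    (h0 : 0 < α) (h1 : α < s) (h2 : 2 ≤ F.parts.card) (w : Finset Ω → EuclideanSpace ℝ Ω)
    (hw : ∀ p ∈ F.parts, w p ∈ V G1 ⊔ V G2)
    (e1 : ∀ p ∈ F.parts, ∀ q ∈ G1.parts, ∑ ω ∈ q, w p ω = (q ∩ p).card)
    (e2 : ∀ p ∈ F.parts, ∀ q ∈ G2.parts, ∑ ω ∈ q, w p ω = (q ∩ p).card)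
    (e0 : ∀ p ∈ F.parts, ∀ q ∈ F.parts, ∑ ω ∈ q, w p ω = (if q = p then α else 0) + β) :
    (∃ a b : ℝ, ∀ p ∈ F.parts, ∀ p' ∈ F.parts,
      ent {G1, G2} p p' = (if p = p' then a else 0) + b) ∧
    (∃ p ∈ F.parts, ∃ p' ∈ F.parts, ent {G1, G2} p p' ≠ 0) ∧
    ∃ μ : ℝ, 0 < μ ∧ μ < 1 ∧ Q {F} ∘L Q {G1, G2} ∘L Q {F} = μ • Q {F} := by
  have hsup : (⨆ G ∈ ({G1, G2} : Finset (Part Ω)), V G) = V G1 ⊔ V G2 := by
    rw [Finset.iSup_insert, sup1]
  have hP : P {G1, G2} = (V G1 ⊔ V G2).starProjection := by unfold P; simp only [hsup]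
  have hPw : ∀ p ∈ F.parts, P {G1, G2} (ind p) = w p := fun p hp => by
    rw [hP]
    refine Submodule.eq_starProjection_of_mem_of_inner_eq_zero (hw p hp) fun x hx => ?_
    obtain ⟨x1, h1, x2, h2, rfl⟩ := Submodule.mem_sup.1 hx
    rw [inner_add_right, orth_V G1 _ (fun q hq => ?_) x1 h1, orth_V G2 _ (fun q hq => ?_) x2 h2,
      add_zero]
    · rw [inner_sub_right, inner_ii, inner_ind, e2 p hp q hq, sub_self]
    · rw [inner_sub_right, inner_ii, inner_ind, e1 p hp q hq, sub_self]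
  have hii : ∀ p ∈ F.parts, ∀ q ∈ F.parts, inner ℝ (ind q) (ind p) = if q = p then s else 0 := by
    intro p hp q hq
    rw [inner_ii]
    split_ifs with h
    · rw [h, inter_self, hs p hp]
    · have : Disjoint q p := F.disjoint hq hp h
      rw [disjoint_iff_inter_eq_empty.1 this]; simp
  have hent : ∀ p ∈ F.parts, ∀ p' ∈ F.parts,
      ent {G1, G2} p p' = (if p = p' then s - α else 0) + -β := by
    intro p hp p' hp'
    rw [ent, hPw p' hp', inner_sub_right, hii p' hp' p hp, inner_ind, e0 p' hp' p hp]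
    split_ifs <;> ring
  have hs0 : 0 < s := h0.trans h1
  refine ⟨⟨_, _, hent⟩, ?_, α / s, div_pos h0 hs0, (div_lt_one hs0).2 h1, ?_⟩
  · obtain ⟨p, hp, q, hq, hpq⟩ := one_lt_card.1 h2
    by_contra hc
    push Not at hc
    have a1 := hc p hp p hp
    have a2 := hc p hp q hq
    rw [hent p hp p hp, if_pos rfl] at a1
    rw [hent p hp q hq, if_neg hpq] at a2
    linarith
  have hlin : ∀ y ∈ V F, ∀ q ∈ F.parts, inner ℝ (ind q) (P {G1, G2} y) =
      α / s * inner ℝ (ind q) y + β / s * inner ℝ (ind univ) y := by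
    intro y hy q hq
    induction hy using Submodule.span_induction with
    | mem y hy =>
      obtain ⟨p, hp, rfl⟩ := hy
      rw [hPw p hp, inner_ind, e0 p hp q hq, hii p hp q hq, inner_ii, univ_inter, hs p hp]
      split_ifs <;> field_simp <;> ring
    | zero => simp
    | add a b _ _ ha hb => simp only [map_add, inner_add_right, ha, hb]; ring
    | smul r a _ ha => simp only [map_smul, inner_smul_right, ha]; ring
  ext1 v
  have hu := u_mem F
  have hy1 : Q {F} v ∈ V F := by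
    rw [Q, ContinuousLinearMap.sub_apply, P1]
    exact Submodule.sub_mem _ (Submodule.starProjection_apply_mem _ _)
      ((Submodule.span_singleton_le_iff_mem _ _).2 hu (Submodule.starProjection_apply_mem _ _))
  have hy2 : inner ℝ (ind univ) (Q {F} v) = 0 := by
    rw [Q, ContinuousLinearMap.sub_apply, P1, inner_sub_right, PU,
      ← Submodule.inner_starProjection_left_eq_right, ← Submodule.inner_starProjection_left_eq_right,
      Submodule.starProjection_eq_self_iff.2 hu,
      Submodule.starProjection_eq_self_iff.2 (Submodule.mem_span_singleton_self _), sub_self]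
  simp only [ContinuousLinearMap.comp_apply, ContinuousLinearMap.smul_apply]
  generalize Q {F} v = y at hy1 hy2
  have hz : inner ℝ (ind univ) (P {G1, G2} y) = 0 := by
    rw [hP, ← Submodule.inner_starProjection_left_eq_right,
      Submodule.starProjection_eq_self_iff.2 (Submodule.mem_sup_left (u_mem G1)), hy2]
  rw [Q, Q, ContinuousLinearMap.sub_apply, ContinuousLinearMap.sub_apply, PU_zero y hy2, sub_zero,
    PU_zero _ hz, sub_zero, P1]
  refine Submodule.eq_starProjection_of_mem_of_inner_eq_zero (Submodule.smul_mem _ _ hy1)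
    (orth_V F _ fun q hq => ?_)
  rw [inner_sub_right, hlin y hy1 q hq, hy2, inner_smul_right]; ring

end Pool.Agent.H.MP_a8a68c_co
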