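import Pool.Agent.H.MP_a8a68c_co.A

namespace Pool.Agent.H.MP_a8a68c_co
open Finset

theorem mean_eq {Ω : Type} [Fintype Ω] [DecidableEq Ω] (F G : Part Ω) :
    mean F G = Fintype.card Ω / (F.parts.card * G.parts.card) := by
  unfold mean
  congr 1
  rw [← card_univ, ← F.sum_card_parts, Nat.cast_sum]
  refine sum_congr rfl fun p _ => ?_
  have : ∀ q : Finset Ω, ((p ∩ q).card : ℚ) = ∑ ω ∈ p, if ω ∈ q then 1 else 0 := fun q => by
    rw [sum_ite_mem]; simp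
  simp only [this]
  rw [sum_comm, card_eq_sum_ones, Nat.cast_sum]
  refine sum_congr rfl fun ω _ => ?_
  obtain ⟨q, ⟨hq, hω⟩, hu⟩ := G.existsUnique_mem (mem_univ ω)
  rw [sum_eq_single_of_mem q hq, if_pos hω, Nat.cast_one]
  intro q' hq' h
  exact if_neg fun h' => h (hu q' ⟨hq', h'⟩)

noncomputable def allLt (p : ℕ → Bool) (n : ℕ) : Bool :=
  Nat.rec (motive := fun _ => Bool) true (fun n ih => and (p n) ih) n

theorem allLt_iff (p : ℕ → Bool) : ∀ n, allLt p n = true ↔ ∀ i < n, p i = true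
  | 0 => by simp [allLt]
  | n + 1 => by
    have := allLt_iff p n
    unfold allLt at this ⊢
    simp only [Bool.and_eq_true, this, Nat.forall_lt_succ_right]; exact and_comm

noncomputable def sm (g : ℕ → ℕ) (n : ℕ) : ℕ :=
  Nat.rec (motive := fun _ => ℕ) 0 (fun j r => Nat.add r (g j)) n

theorem sm_eq (g : ℕ → ℕ) : ∀ n, sm g n = ∑ j ∈ range n, g j
  | 0 => rfl
  | n + 1 => by rw [sum_range_succ, ← sm_eq g n]; rfl

def fib (N : ℕ) (f : ℕ → ℕ) (q : ℕ) : Finset (Fin N) := univ.filter fun ω => f ω = q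

/-- `f` labels `[0,N)` by `[0,k)`; `σ q` enumerates the fibre of `q`, `ι` is the index -/
def Lab (N k s : ℕ) (f ι : ℕ → ℕ) (σ : ℕ → ℕ → ℕ) : Prop :=
  (∀ ω < N, f ω < k ∧ ι ω < s ∧ σ (f ω) (ι ω) = ω) ∧
    ∀ q < k, ∀ j < s, σ q j < N ∧ f (σ q j) = q ∧ ι (σ q j) = j

noncomputable def labB (N k s : ℕ) (f ι : ℕ → ℕ) (σ : ℕ → ℕ → ℕ) : Bool :=
  and (allLt (fun ω => and (Nat.blt (f ω) k) (and (Nat.blt (ι ω) s) (Nat.beq (σ (f ω) (ι ω)) ω))) N)
    (allLt (fun q => allLt (fun j => and (Nat.blt (σ q j) N)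
      (and (Nat.beq (f (σ q j)) q) (Nat.beq (ι (σ q j)) j))) s) k)

theorem labB_ok {N k s f ι σ} (h : labB N k s f ι σ = true) : Lab N k s f ι σ := by
  simpa only [labB, Lab, Bool.and_eq_true, allLt_iff, Nat.blt_eq, Nat.beq_eq] using h

variable {N k s : ℕ} {f ι : ℕ → ℕ} {σ : ℕ → ℕ → ℕ}

theorem Lab.sum (h : Lab N k s f ι σ) {q : ℕ} (hq : q < k) (g : ℕ → ℕ) :
    ∑ ω ∈ fib N f q, g ω = sm (fun j => g (σ q j)) s := by
  rw [sm_eq]
  refine sum_bij' (fun ω _ => ι ω) (fun j hj => ⟨σ q j, (h.2 q hq j (mem_range.1 hj)).1⟩)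
    (fun ω _ => mem_range.2 (h.1 ω ω.2).2.1)
    (fun j hj => mem_filter.2 ⟨mem_univ _, (h.2 q hq j (mem_range.1 hj)).2.1⟩)
    (fun ω hω => Fin.ext ?_) (fun j hj => (h.2 q hq j (mem_range.1 hj)).2.2) (fun ω hω => ?_)
  · show σ q (ι ω) = ω
    rw [← (mem_filter.1 hω).2]; exact (h.1 ω ω.2).2.2
  · rw [← (mem_filter.1 hω).2, (h.1 ω ω.2).2.2]

theorem Lab.card (h : Lab N k s f ι σ) {q : ℕ} (hq : q < k) : (fib N f q).card = s := by
  rw [card_eq_sum_ones, h.sum hq (fun _ => 1), sm_eq]; simp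

theorem beqF {a b : ℕ} (h : a ≠ b) : Nat.beq a b = false := by
  rw [← Bool.not_eq_true, Nat.beq_eq]; exact h

noncomputable def cnt (f0 : ℕ → ℕ) (σ : ℕ → ℕ → ℕ) (s q p : ℕ) : ℕ :=
  sm (fun j => cond (Nat.beq (f0 (σ q j)) p) 1 0) s

theorem Lab.cnt (h : Lab N k s f ι σ) {q : ℕ} (hq : q < k) (f0 : ℕ → ℕ) (p : ℕ) :
    (fib N f q ∩ fib N f0 p).card = cnt f0 σ s q p := by
  refine Eq.trans ?_ (h.sum hq fun ω => cond (Nat.beq (f0 ω) p) 1 0)
  rw [fib.eq_1 N f0, inter_filter, inter_univ, card_filter]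
  refine sum_congr rfl fun ω _ => ?_
  by_cases e : f0 ω = p
  · simp [e]
  · rw [if_neg e, beqF e]; rfl

theorem Lab.inj (h : Lab N k s f ι σ) (hs : 0 < s) {p q : ℕ} (hp : p < k)
    (e : fib N f p = fib N f q) : p = q := by
  have h1 := h.2 p hp 0 hs
  have : (⟨σ p 0, h1.1⟩ : Fin N) ∈ fib N f p := mem_filter.2 ⟨mem_univ _, h1.2.1⟩
  rw [e] at this
  exact h1.2.1.symm.trans (mem_filter.1 this).2

def Lab.part (h : Lab N k s f ι σ) (hs : 0 < s) : Part (Fin N) :=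
  Finpartition.ofExistsUnique ((range k).image (fib N f)) (fun _ _ => subset_univ _)
    (fun ω _ => ⟨fib N f (f ω), ⟨mem_image.2 ⟨_, mem_range.2 (h.1 ω ω.2).1, rfl⟩, by simp [fib]⟩, by
      rintro p ⟨hp, hω⟩
      obtain ⟨q, -, rfl⟩ := mem_image.1 hp
      rw [(mem_filter.1 hω).2]⟩)
    (fun h0 => by
      obtain ⟨q, hq, e⟩ := mem_image.1 h0
      have := h.card (mem_range.1 hq)
      rw [e, card_empty] at this; omega)

theorem Lab.mem (h : Lab N k s f ι σ) (hs : 0 < s) {p : Finset (Fin N)} :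
    p ∈ (h.part hs).parts ↔ ∃ q < k, fib N f q = p := by
  show p ∈ (range k).image (fib N f) ↔ _
  simp

theorem Lab.ncard (h : Lab N k s f ι σ) (hs : 0 < s) : (h.part hs).parts.card = k := by
  show ((range k).image (fib N f)).card = k
  rw [card_image_of_injOn fun p hp q _ e => h.inj hs (mem_range.1 hp) e, card_range]

theorem Lab.memV (h : Lab N k s f ι σ) (hs : 0 < s) (c : ℕ → ℝ) :
    (WithLp.toLp 2 fun ω : Fin N => c (f ω)) ∈ V (h.part hs) := by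
  classical
  refine mem_V _ (fun p : Finset (Fin N) => if hp : p.Nonempty then c (f (hp.choose : Fin N)) else 0) _ fun p hp ω hω => ?_
  obtain ⟨q, -, rfl⟩ := (h.mem hs).1 hp
  have hn : (fib N f q).Nonempty := ⟨ω, hω⟩
  rw [dif_pos hn, (mem_filter.1 hn.choose_spec).2, ← (mem_filter.1 hω).2]

noncomputable def keyB (k s : ℕ) (f0 f1 f2 : ℕ → ℕ) (σ0 σ1 σ2 B1 B2 : ℕ → ℕ → ℕ) (D C a b : ℕ) :
    Bool :=
  and (and (Nat.blt 0 a) (Nat.blt a (Nat.mul D s))) (allLt (fun p => allLt (fun q =>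
    and (Nat.beq (sm (fun j => Nat.add (B1 p (f1 (σ1 q j))) (B2 p (f2 (σ1 q j)))) s)
      (Nat.add (Nat.mul D (cnt f0 σ1 s q p)) (Nat.mul s C)))
    (and (Nat.beq (sm (fun j => Nat.add (B1 p (f1 (σ2 q j))) (B2 p (f2 (σ2 q j)))) s)
      (Nat.add (Nat.mul D (cnt f0 σ2 s q p)) (Nat.mul s C)))
    (Nat.beq (sm (fun j => Nat.add (B1 p (f1 (σ0 q j))) (B2 p (f2 (σ0 q j)))) s)
      (Nat.add (Nat.add (cond (Nat.beq q p) a 0) b) (Nat.mul s C))))) k) k)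

theorem keyB_ok {f0 f1 f2 ι0 ι1 ι2 : ℕ → ℕ} {σ0 σ1 σ2 B1 B2 : ℕ → ℕ → ℕ} {D C a b : ℕ}
    (h0 : Lab N k s f0 ι0 σ0) (h1 : Lab N k s f1 ι1 σ1) (h2 : Lab N k s f2 ι2 σ2) (hs : 0 < s)
    (hk : 2 ≤ k) (h : keyB k s f0 f1 f2 σ0 σ1 σ2 B1 B2 D C a b = true) :
    (∃ a b : ℝ, ∀ p ∈ (h0.part hs).parts, ∀ p' ∈ (h0.part hs).parts,
      ent {h1.part hs, h2.part hs} p p' = (if p = p' then a else 0) + b) ∧
    (∃ p ∈ (h0.part hs).parts, ∃ p' ∈ (h0.part hs).parts, ent {h1.part hs, h2.part hs} p p' ≠ 0) ∧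
    ∃ μ : ℝ, 0 < μ ∧ μ < 1 ∧ Q {h0.part hs} ∘L Q {h1.part hs, h2.part hs} ∘L Q {h0.part hs} =
      μ • Q {h0.part hs} := by
  classical
  simp only [keyB, Bool.and_eq_true, allLt_iff, Nat.blt_eq, Nat.beq_eq, Nat.add_eq,
    Nat.mul_eq] at h
  obtain ⟨⟨ha, haD⟩, h⟩ := h
  have hD : (0 : ℝ) < D := by
    rcases Nat.eq_zero_or_pos D with rfl | h
    · simp at haD
    · exact_mod_cast h
  let l : Finset (Fin N) → ℕ := fun p => if hp : p.Nonempty then f0 hp.choose else 0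
  have hl : ∀ p < k, l (fib N f0 p) = p := fun p hp => by
    have hn : (fib N f0 p).Nonempty := card_pos.1 (by rw [h0.card hp]; exact hs)
    simp only [l]; rw [dif_pos hn]; exact (mem_filter.1 hn.choose_spec).2
  let w : Finset (Fin N) → EuclideanSpace ℝ (Fin N) := fun p =>
    (WithLp.toLp 2 fun ω : Fin N => (((B1 (l p) (f1 ω) : ℕ) : ℝ) - C) / D) +
      (WithLp.toLp 2 fun ω : Fin N => ((B2 (l p) (f2 ω) : ℕ) : ℝ) / D)
  have hw : ∀ p < k, ∀ {f ι σ}, Lab N k s f ι σ → ∀ q < k, ∑ ω ∈ fib N f q, w (fib N f0 p) ω =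
      ((sm (fun j => B1 p (f1 (σ q j)) + B2 p (f2 (σ q j))) s : ℕ) - (s : ℝ) * C) / D := by
    intro p hp f ι σ h q hq
    rw [← h.sum hq (fun ω => B1 p (f1 ω) + B2 p (f2 ω)), ← h.card hq, Nat.cast_sum, ← nsmul_eq_mul,
      ← sum_const, ← sum_sub_distrib, sum_div]
    refine sum_congr rfl fun ω _ => ?_
    simp only [w, hl p hp, PiLp.add_apply]; push_cast; ring
  refine key _ _ _ s (a / D) (b / D) (fun p hp => ?_) (by positivity)
    (by rw [div_lt_iff₀ hD, mul_comm]; exact_mod_cast haD) (by rw [h0.ncard]; exact hk) w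
    (fun p _ => Submodule.add_mem_sup (h1.memV hs fun x => (((B1 (l p) x : ℕ) : ℝ) - C) / D)
      (h2.memV hs fun x => ((B2 (l p) x : ℕ) : ℝ) / D)) (fun p hp q hq => ?_) (fun p hp q hq => ?_)
    (fun p hp q hq => ?_)
  · obtain ⟨p, hp', rfl⟩ := (h0.mem hs).1 hp; clear hp; have hp := hp'
    rw [h0.card hp]
  · obtain ⟨p, hp', rfl⟩ := (h0.mem hs).1 hp; clear hp; have hp := hp'
    obtain ⟨q, hq', rfl⟩ := (h1.mem hs).1 hq; clear hq; have hq := hq'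
    rw [hw p hp h1 q hq, (h p hp q hq).1, h1.cnt hq]; push_cast; field_simp; ring
  · obtain ⟨p, hp', rfl⟩ := (h0.mem hs).1 hp; clear hp; have hp := hp'
    obtain ⟨q, hq', rfl⟩ := (h2.mem hs).1 hq; clear hq; have hq := hq'
    rw [hw p hp h2 q hq, (h p hp q hq).2.1, h2.cnt hq]; push_cast; field_simp; ring
  · obtain ⟨p, hp', rfl⟩ := (h0.mem hs).1 hp; clear hp; have hp := hp'
    obtain ⟨q, hq', rfl⟩ := (h0.mem hs).1 hq; clear hq; have hq := hq'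
    rw [hw p hp h0 q hq, (h p hp q hq).2.2]
    by_cases e : q = p
    · subst e; simp; field_simp
    · rw [if_neg fun e' => e (h0.inj hs hq e'), beqF e]; simp

theorem UB3 {f ι : ℕ → ℕ → ℕ} {σ : ℕ → ℕ → ℕ → ℕ} (h : ∀ i < 3, Lab N k s (f i) (ι i) (σ i))
    (hs : 0 < s) (hk : 2 ≤ k) (lo hi : ℕ) (hlo : ⌊(N : ℚ) / (k * k)⌋ = lo)
    (hhi : ⌈(N : ℚ) / (k * k)⌉ = hi) (h1 : lo < s) (h2 : hi < s)
    (hc : ∀ i < 3, ∀ j < 3, i ≠ j → ∀ p < k, ∀ q < k,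
      cnt (f j) (σ i) s p q = lo ∨ cnt (f j) (σ i) s p q = hi)
    (hb : ∀ i < 3, ∀ l < 3, ∀ j ≤ l, j ≠ i → l ≠ i → ∃ B1 B2 D C a b,
      keyB k s (f i) (f j) (f l) (σ i) (σ j) (σ l) B1 B2 D C a b = true) :
    (univ.image fun i : Fin 3 => (h i i.2).part hs).card = 3 ∧
      UB (univ.image fun i : Fin 3 => (h i i.2).part hs) := by
  have inj : Function.Injective fun i : Fin 3 => (h i i.2).part hs := by
    intro i j e
    by_contra hij
    have m1 := ((h i i.2).mem hs).2 ⟨0, by omega, rfl⟩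
    rw [show (h i i.2).part hs = (h j j.2).part hs from e] at m1
    obtain ⟨q, hq, e⟩ := ((h j j.2).mem hs).1 m1
    have := hc i i.2 j j.2 (fun e => hij (Fin.ext e)) 0 (by omega) q hq
    rw [← (h i i.2).cnt (by omega), e, inter_self, (h i i.2).card (by omega)] at this
    omega
  refine ⟨by rw [card_image_of_injective _ inj]; simp, fun F hF p hp p' hp' => ?_,
    fun F hF G hG hFG p hp q hq => ?_, fun F hF L hL hne => ?_⟩
  · obtain ⟨i, -, rfl⟩ := mem_image.1 hF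
    obtain ⟨a, ha, rfl⟩ := ((h i i.2).mem hs).1 hp
    obtain ⟨b, hb, rfl⟩ := ((h i i.2).mem hs).1 hp'
    rw [(h i i.2).card ha, (h i i.2).card hb]
  · obtain ⟨i, -, rfl⟩ := mem_image.1 hF
    obtain ⟨j, -, rfl⟩ := mem_image.1 hG
    obtain ⟨a, ha, rfl⟩ := ((h i i.2).mem hs).1 hp
    obtain ⟨b, hb, rfl⟩ := ((h j j.2).mem hs).1 hq
    rw [mean_eq, Lab.ncard, Lab.ncard, Fintype.card_fin, hlo, hhi, (h i i.2).cnt ha]
    exact_mod_cast hc i i.2 j j.2 (fun e => hFG (by rw [Fin.ext e])) a ha b hb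
  · obtain ⟨i, -, rfl⟩ := mem_image.1 hF
    rw [← image_erase inj] at hL
    obtain ⟨S, hS, rfl⟩ := subset_image_iff.1 hL
    have hS0 : S.Nonempty := image_nonempty.1 hne
    have : ∀ i : Fin 3, ∀ S : Finset (Fin 3), S ⊆ univ.erase i → S.Nonempty →
        ∃ j l : Fin 3, j ≤ l ∧ j ≠ i ∧ l ≠ i ∧ S = {j, l} := by decide
    obtain ⟨j, l, a1, a2, a3, rfl⟩ := this i S hS hS0
    obtain ⟨B1, B2, D, C, a, b, hB⟩ := hb i i.2 l l.2 j a1 (fun e => a2 (Fin.ext e))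
      (fun e => a3 (Fin.ext e))
    rw [image_insert, image_singleton]
    exact keyB_ok (h i i.2) (h j j.2) (h l l.2) hs hk hB

end Pool.Agent.H.MP_a8a68c_co
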