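import Mathlib

namespace Pool.Agent.H.MP_a8a68c_co
open Finset

variable {Ω : Type} [Fintype Ω] [DecidableEq Ω]

/-- partitions of `Ω` -/
abbrev Part (Ω : Type) [Fintype Ω] [DecidableEq Ω] := Finpartition (univ : Finset Ω)

/-- the indicator vector of `p` in `ℝ^Ω` (a column of an incidence matrix) -/
noncomputable def ind (p : Finset Ω) : EuclideanSpace ℝ Ω :=
  WithLp.toLp 2 fun ω => if ω ∈ p then 1 else 0

/-- `V_F`, the column space of `X_F` -/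
noncomputable def V (F : Part Ω) : Submodule ℝ (EuclideanSpace ℝ Ω) :=
  Submodule.span ℝ (ind '' (F.parts : Set (Finset Ω)))

/-- `P_L`, the orthogonal projection onto `∑_{F ∈ L} V_F` -/
noncomputable def P (L : Finset (Part Ω)) : EuclideanSpace ℝ Ω →L[ℝ] EuclideanSpace ℝ Ω :=
  (⨆ F ∈ L, V F).starProjection

/-- `P_U`, the orthogonal projection onto the constants -/
noncomputable def PU : EuclideanSpace ℝ Ω →L[ℝ] EuclideanSpace ℝ Ω :=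
  (Submodule.span ℝ {ind (univ : Finset Ω)}).starProjection

/-- `Q_L = P_L - P_U` -/
noncomputable def Q (L : Finset (Part Ω)) : EuclideanSpace ℝ Ω →L[ℝ] EuclideanSpace ℝ Ω :=
  P L - PU

/-- the `(p, p')` entry of `X_Fᵀ (I - P_L) X_F` -/
noncomputable def ent (L : Finset (Part Ω)) (p p' : Finset Ω) : ℝ :=
  inner ℝ (ind p) (ind p' - P L (ind p'))

/-- the mean entry of `N_{FG}` -/
def mean (F G : Part Ω) : ℚ :=
  (∑ p ∈ F.parts, ∑ q ∈ G.parts, ((p ∩ q).card : ℚ)) / (F.parts.card * G.parts.card)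

/-- universal balance -/
def UB (H : Finset (Part Ω)) : Prop :=
  (∀ F ∈ H, ∀ p ∈ F.parts, ∀ p' ∈ F.parts, p.card = p'.card) ∧
  (∀ F ∈ H, ∀ G ∈ H, F ≠ G → ∀ p ∈ F.parts, ∀ q ∈ G.parts,
    ((p ∩ q).card : ℤ) = ⌊mean F G⌋ ∨ ((p ∩ q).card : ℤ) = ⌈mean F G⌉) ∧
  ∀ F ∈ H, ∀ L ⊆ H.erase F, L.Nonempty →
    (∃ a b : ℝ, ∀ p ∈ F.parts, ∀ p' ∈ F.parts, ent L p p' = (if p = p' then a else 0) + b) ∧
    (∃ p ∈ F.parts, ∃ p' ∈ F.parts, ent L p p' ≠ 0) ∧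
    ∃ μ : ℝ, 0 < μ ∧ μ < 1 ∧ Q {F} ∘L Q L ∘L Q {F} = μ • Q {F}

/-- an `n × m` Youden-type design on `Ω = Fin (n * m)` -/
def Youden (n m : ℕ) (𝓕 𝓖 : Finset (Part (Fin (n * m)))) : Prop :=
  (∀ F ∈ 𝓕, F.parts.card = m ∧ ∀ p ∈ F.parts, p.card = n) ∧
  (∀ G ∈ 𝓖, G.parts.card = n ∧ ∀ q ∈ G.parts, q.card = m) ∧
  (∀ F ∈ 𝓕, ∀ G ∈ 𝓖, ∀ p ∈ F.parts, ∀ q ∈ G.parts, (p ∩ q).card = 1) ∧ UB 𝓕 ∧ UB 𝓖

end Pool.Agent.H.MP_a8a68c_co
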