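import Pool.Agent.H.MP_a8a68c_co.C

namespace Pool.Agent.H.MP_a8a68c_co
open Finset

noncomputable def c3 : Bool :=
  allLt (fun i => allLt (fun l => allLt (fun j => or (or (Nat.beq j i) (Nat.beq l i))
    (cond (Nat.beq j l)
      (keyB 27 13 (ff i) (ff j) (ff l) (fs i) (fs j) (fs l) (bb i j 0) (fun _ _ => 0) 13 0 7 6)
      (keyB 27 13 (ff i) (ff j) (ff l) (fs i) (fs j) (fs l) (bb i j 1) (bb i l 1) 162 20 162 72)))
    (Nat.succ l)) 3) 3

theorem h3 : c3 = true := by decide +kernel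

end Pool.Agent.H.MP_a8a68c_co
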